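import Pool.Agent.H108.QS.Stm

set_option autoImplicit false

/-!
# The number of linearly independent tuples in a subspace (helper746, for helper108)
-/

namespace Pool.Agent.H108.QS

/-- The independent tuples of `V` with values in `W` are the independent tuples of `W`. -/
def ca_equiv (F V : Type) [Field F] [AddCommGroup V] [Module F V] (W : Submodule F V) (s : ℕ) :
    {v : Fin s → V // LinearIndependent F v ∧ ∀ i, v i ∈ W} ≃
      {v : Fin s → W // LinearIndependent F v} where
  toFun v := ⟨fun i => ⟨v.1 i, v.2.2 i⟩, by
    have h : W.subtype ∘ (fun i => (⟨v.1 i, v.2.2 i⟩ : W)) = v.1 := rfl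
    exact LinearIndependent.of_comp W.subtype (by rw [h]; exact v.2.1)⟩
  invFun v := ⟨fun i => (v.1 i : V),
    v.2.map' W.subtype (Submodule.ker_subtype W), fun i => (v.1 i).2⟩
  left_inv _ := rfl
  right_inv _ := rfl

theorem t_CA : S_CA := by
  intro F V _ _ _ _ _ W s w hw hs
  have := Fintype.ofFinite F
  have hV : Finite V := Module.finite_of_finite F
  have hW : Finite W := inferInstance
  rw [Nat.card_congr (ca_equiv F V W s)]
  have h := card_linearIndependent (K := F) (V := W) (k := s) (by rw [hw]; exact hs)
  rw [h, hw, Nat.card_eq_fintype_card]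

end Pool.Agent.H108.QS
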