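import Pool.Agent.H108.QS.Stm

/-!
# Double counting for subspace designs in the quotient by a subspace
-/

set_option autoImplicit false

namespace Pool.Agent.H108.QS

open Finset

theorem cb_finrank {F V : Type} [Field F] [AddCommGroup V] [Module F V] [FiniteDimensional F V]
    (I U : Submodule F V) (h : I ≤ U) :
    Module.finrank F (U.map I.mkQ) + Module.finrank F I = Module.finrank F U := by
  have h1 := LinearMap.finrank_range_add_finrank_ker (I.mkQ ∘ₗ U.subtype)
  rw [LinearMap.range_comp, Submodule.range_subtype, LinearMap.ker_comp, Submodule.ker_mkQ,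
    (Submodule.comapSubtypeEquivOfLe h).finrank_eq] at h1
  exact h1

theorem cb_iff {F V : Type} [Field F] [AddCommGroup V] [Module F V]
    (I U : Submodule F V) {s : ℕ} (w : Fin s → V ⧸ I) :
    (Submodule.span F (Set.range w)).comap I.mkQ ≤ U ↔ I ≤ U ∧ ∀ l, w l ∈ U.map I.mkQ := by
  constructor
  · intro h
    refine ⟨fun x hx => h ?_, fun l => ?_⟩
    · rw [Submodule.mem_comap, Submodule.mkQ_apply, (Submodule.Quotient.mk_eq_zero I).2 hx]
      exact Submodule.zero_mem _
    · obtain ⟨v, hv⟩ := I.mkQ_surjective (w l)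
      rw [← hv]
      refine Submodule.mem_map_of_mem (h ?_)
      rw [Submodule.mem_comap, hv]
      exact Submodule.subset_span ⟨l, rfl⟩
  · rintro ⟨h1, h2⟩ x hx
    rw [Submodule.mem_comap] at hx
    have h3 : Submodule.span F (Set.range w) ≤ U.map I.mkQ := by
      rw [Submodule.span_le]
      rintro _ ⟨l, rfl⟩
      exact h2 l
    obtain ⟨y, hy, hxy⟩ := Submodule.mem_map.1 (h3 hx)
    have h4 : y - x ∈ I := by
      rw [Submodule.mkQ_apply, Submodule.mkQ_apply] at hxy
      exact (Submodule.Quotient.eq I).1 hxy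
    have h5 : x = y - (y - x) := by abel
    rw [h5]
    exact U.sub_mem hy (h1 h4)

theorem cb_dim {F V : Type} [Field F] [AddCommGroup V] [Module F V] [FiniteDimensional F V]
    (I : Submodule F V) {s : ℕ} (w : Fin s → V ⧸ I) (hw : LinearIndependent F w) :
    Module.finrank F ((Submodule.span F (Set.range w)).comap I.mkQ) = s + Module.finrank F I := by
  have h1 : I ≤ (Submodule.span F (Set.range w)).comap I.mkQ :=
    ((cb_iff I _ w).1 le_rfl).1
  have h2 := cb_finrank I _ h1
  rw [Submodule.map_comap_eq_of_surjective I.mkQ_surjective, finrank_span_eq_card hw,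
    Fintype.card_fin] at h2
  exact h2.symm

theorem t_CB (hCA : S_CA) : S_CB := by
  intro F V ι _ _ _ _ _ _ t k lam i B I hB htk hkn hit hI
  classical
  have : Finite V := Module.finite_of_finite F
  have : Finite (V ⧸ I) := Module.finite_of_finite F
  have : Fintype (V ⧸ I) := Fintype.ofFinite _
  have : Fintype ι := Fintype.ofFinite _
  have hQ : Module.finrank F (V ⧸ I) = Module.finrank F V - i := by
    have h1 := I.finrank_quotient_add_finrank
    omega
  let s : Finset (Fin (t - i) → V ⧸ I) := univ.filter fun w => LinearIndependent F w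
  let r : Finset ι := univ.filter fun b => I ≤ B b
  let R : (Fin (t - i) → V ⧸ I) → ι → Prop := fun w b => ∀ l, w l ∈ (B b).map I.mkQ
  have hs : s.card = ∏ j : Fin (t - i),
      (Nat.card F ^ (Module.finrank F V - i) - Nat.card F ^ (j : ℕ)) := by
    have h1 := hCA F (V ⧸ I) ⊤ (t - i) (Module.finrank F V - i)
      (by rw [finrank_top, hQ]) (by omega)
    rw [← h1, Nat.card_eq_fintype_card, Fintype.card_subtype]
    refine congrArg Finset.card (Finset.ext fun w => ?_)
    rw [mem_filter, mem_filter]
    exact ⟨fun h => ⟨h.1, h.2, fun _ => Submodule.mem_top⟩, fun h => ⟨h.1, h.2.1⟩⟩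
  have hr : ∀ b ∈ r, (s.bipartiteBelow R b).card = ∏ j : Fin (t - i),
      (Nat.card F ^ (k - i) - Nat.card F ^ (j : ℕ)) := by
    intro b hb
    have hb' : I ≤ B b := (mem_filter.1 hb).2
    have h0 := cb_finrank I (B b) hb'
    have h1 := hCA F (V ⧸ I) ((B b).map I.mkQ) (t - i) (k - i)
      (by rw [hB.dim b] at h0; omega) (by omega)
    rw [← h1, Nat.card_eq_fintype_card, Fintype.card_subtype]
    refine congrArg Finset.card (Finset.ext fun w => ?_)
    rw [mem_bipartiteBelow, mem_filter, mem_filter]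
    exact ⟨fun h => ⟨h.1.1, h.1.2, h.2⟩, fun h => ⟨⟨h.1, h.2.1⟩, h.2.2⟩⟩
  have hl : ∀ w ∈ s, (r.bipartiteAbove R w).card = lam := by
    intro w hw
    have hw' : LinearIndependent F w := (mem_filter.1 hw).2
    have h0 := cb_dim I w hw'
    have h1 := hB.cover ((Submodule.span F (Set.range w)).comap I.mkQ) (by rw [h0, hI]; omega)
    rw [← h1, Nat.card_eq_fintype_card, Fintype.card_subtype]
    refine congrArg Finset.card (Finset.ext fun b => ?_)
    rw [mem_bipartiteAbove, mem_filter, mem_filter, cb_iff I (B b) w]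
    exact ⟨fun h => ⟨h.1.1, h.1.2, h.2⟩, fun h => ⟨⟨h.1, h.2.1⟩, h.2.2⟩⟩
  refine ⟨r.card, ?_⟩
  have h := sum_card_bipartiteAbove_eq_sum_card_bipartiteBelow (s := s) (t := r) R
  rw [sum_congr rfl hl, sum_congr rfl hr, sum_const, sum_const, smul_eq_mul, smul_eq_mul, hs] at h
  rw [mul_comm, h]

end Pool.Agent.H108.QS
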