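import Pool.Agent.H108.QS.Stm

set_option autoImplicit false

/-!
# Vanishing of finite differences of the integers `(N + a j) / (K + j)` (helper887)
-/

namespace Pool.Agent.H108.QS

open Finset

theorem ia_pascal (e : ℕ) (g : ℕ → ℚ) :
    ∑ l ∈ range (e + 2), (-1 : ℚ) ^ l * ((e + 1).choose l) * g l =
      ∑ l ∈ range (e + 1), (-1 : ℚ) ^ l * (e.choose l) * g l -
        ∑ l ∈ range (e + 1), (-1 : ℚ) ^ l * (e.choose l) * g (l + 1) := by
  have h1 : ∑ l ∈ range (e + 1), (-1 : ℚ) ^ l * (e.choose l) * g l =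
      ∑ l ∈ range (e + 2), (-1 : ℚ) ^ l * (e.choose l) * g l := by
    rw [sum_range_succ (n := e + 1), Nat.choose_succ_self]
    simp
  rw [h1, sum_range_succ' (n := e + 1), sum_range_succ' (n := e + 1)]
  have h2 : ∑ l ∈ range (e + 1), (-1 : ℚ) ^ (l + 1) * ((e + 1).choose (l + 1)) * g (l + 1) =
      ∑ l ∈ range (e + 1), (-1 : ℚ) ^ (l + 1) * (e.choose (l + 1)) * g (l + 1) -
        ∑ l ∈ range (e + 1), (-1 : ℚ) ^ l * (e.choose l) * g (l + 1) := by
    rw [← sum_sub_distrib]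
    refine sum_congr rfl fun l _ => ?_
    rw [Nat.choose_succ_succ]
    push_cast
    ring
  rw [h2]
  simp only [Nat.choose_zero_right]
  ring

theorem ia_frac (e : ℕ) : ∀ x : ℚ, 0 < x →
    ∑ l ∈ range (e + 1), (-1 : ℚ) ^ l * (e.choose l) * (x + l)⁻¹ =
      e.factorial / ∏ l ∈ range (e + 1), (x + l) := by
  induction e with
  | zero =>
    intro x hx
    simp
  | succ e ih =>
    intro x hx
    rw [ia_pascal e (fun l => (x + l)⁻¹), ih x hx]
    have h1 : ∑ l ∈ range (e + 1), (-1 : ℚ) ^ l * (e.choose l) * (x + ((l + 1 : ℕ) : ℚ))⁻¹ =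
        e.factorial / ∏ l ∈ range (e + 1), (x + 1 + l) := by
      rw [← ih (x + 1) (by linarith)]
      refine sum_congr rfl fun l _ => ?_
      push_cast
      rw [add_assoc x 1 (l : ℚ), add_comm (1 : ℚ) l]
    rw [h1]
    have hP : ∏ l ∈ range (e + 2), (x + (l : ℚ)) =
        (∏ l ∈ range (e + 1), (x + (l : ℚ))) * (x + (e + 1)) := by
      rw [prod_range_succ (n := e + 1)]
      push_cast
      rfl
    have hP' : ∏ l ∈ range (e + 2), (x + (l : ℚ)) =
        (∏ l ∈ range (e + 1), (x + 1 + (l : ℚ))) * x := by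
      rw [prod_range_succ' (n := e + 1)]
      congr 1
      · refine prod_congr rfl fun l _ => ?_
        push_cast
        ring
      · simp
    have hA : ∏ l ∈ range (e + 1), (x + (l : ℚ)) ≠ 0 :=
      (prod_pos fun l _ => by positivity).ne'
    have hB : ∏ l ∈ range (e + 1), (x + 1 + (l : ℚ)) ≠ 0 :=
      (prod_pos fun l _ => by positivity).ne'
    have hx1 : x + (e + 1) ≠ 0 := by positivity
    set A := ∏ l ∈ range (e + 1), (x + (l : ℚ))
    set Bp := ∏ l ∈ range (e + 1), (x + 1 + (l : ℚ))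
    show (e.factorial : ℚ) / A - e.factorial / Bp =
      ((e + 1).factorial : ℕ) / ∏ l ∈ range (e + 2), (x + (l : ℚ))
    rw [hP, Nat.factorial_succ]
    have hrel : A * (x + (e + 1)) = Bp * x := by rw [← hP, hP']
    push_cast
    rw [div_sub_div _ _ hA hB, div_eq_div_iff (mul_ne_zero hA hB) (mul_ne_zero hA hx1)]
    linear_combination (-(e.factorial : ℚ) * A) * hrel

theorem t_IA : S_IA := by
  intro K N e T m a he hT hN hm i hi
  have hT1 : 1 ≤ T := by omega
  have hK0 : 0 < K := by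
    have : 0 < 2 ^ (e + 1) * T := by positivity
    omega
  have hKq : (0 : ℚ) < K := by exact_mod_cast hK0
  set x : ℚ := (K : ℚ) + i with hx
  have hxK : (K : ℚ) ≤ x := by
    have : (0 : ℚ) ≤ i := Nat.cast_nonneg _
    linarith
  have hx0 : 0 < x := by linarith
  have hxl : ∀ l : ℕ, (K : ℚ) ≤ x + l := fun l => by
    have : (0 : ℚ) ≤ l := Nat.cast_nonneg _
    linarith
  have hxl0 : ∀ l : ℕ, 0 < x + (l : ℚ) := fun l => by linarith [hxl l]
  -- the values
  have hval : ∀ l ∈ range (e + 1), (m (i + l) : ℚ) =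
      (N : ℚ) * (x + l)⁻¹ + (a (i + l) : ℚ) * (x + l)⁻¹ := by
    intro l hl
    have hl' : i + l < T := by
      have := mem_range.1 hl
      omega
    have h1 := (hm (i + l) hl').1
    have h2 : (x + l) * (m (i + l) : ℚ) = N + a (i + l) := by
      have h3 : (((K : ℤ) + ((i + l : ℕ) : ℤ)) * m (i + l) : ℤ) = (N : ℤ) + a (i + l) := h1
      have h4 : ((((K : ℤ) + ((i + l : ℕ) : ℤ)) * m (i + l) : ℤ) : ℚ) = ((N : ℤ) + a (i + l) : ℤ) := by
        rw [h3]
      push_cast at h4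
      rw [hx]
      linarith
    have h5 : (x + l) ≠ 0 := (hxl0 l).ne'
    rw [← add_mul, ← h2, mul_comm (x + (l : ℚ)), mul_assoc, mul_inv_cancel₀ h5, mul_one]
  have hS : ((∑ l ∈ range (e + 1), (-1 : ℤ) ^ l * (e.choose l) * m (i + l) : ℤ) : ℚ) =
      (N : ℚ) * (e.factorial / ∏ l ∈ range (e + 1), (x + l)) +
        ∑ l ∈ range (e + 1), (-1 : ℚ) ^ l * (e.choose l) * ((a (i + l) : ℚ) * (x + l)⁻¹) := by
    rw [← ia_frac e x hx0, mul_sum, ← sum_add_distrib]
    push_cast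
    refine sum_congr rfl fun l hl => ?_
    rw [hval l hl]
    ring
  -- the first term
  have hprod : (K : ℚ) ^ (e + 1) ≤ ∏ l ∈ range (e + 1), (x + (l : ℚ)) := by
    have h1 : ∏ _l ∈ range (e + 1), (K : ℚ) ≤ ∏ l ∈ range (e + 1), (x + (l : ℚ)) :=
      prod_le_prod (fun _ _ => hKq.le) fun l _ => hxl l
    rwa [prod_const, card_range] at h1
  have hKe : (0 : ℚ) < (K : ℚ) ^ (e + 1) := by positivity
  have hPpos : 0 < ∏ l ∈ range (e + 1), (x + (l : ℚ)) := lt_of_lt_of_le hKe hprod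
  have hb1 : 0 ≤ (N : ℚ) * (e.factorial / ∏ l ∈ range (e + 1), (x + (l : ℚ))) := by
    have := hPpos.le
    positivity
  have hb2 : (N : ℚ) * (e.factorial / ∏ l ∈ range (e + 1), (x + (l : ℚ))) < 1 / 2 := by
    rw [← mul_div_assoc, div_lt_iff₀ hPpos]
    have h1 : (2 : ℚ) * e.factorial * N < (K : ℚ) ^ (e + 1) := by exact_mod_cast hN
    linarith
  -- the second term
  have hb3 : |∑ l ∈ range (e + 1), (-1 : ℚ) ^ l * (e.choose l) *
      ((a (i + l) : ℚ) * (x + l)⁻¹)| < 1 / 2 := by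
    have h1 : ∀ l ∈ range (e + 1), |(-1 : ℚ) ^ l * (e.choose l) *
        ((a (i + l) : ℚ) * (x + l)⁻¹)| ≤ (e.choose l) * (((T : ℚ) - 1) / K) := by
      intro l hl
      have hl' : i + l < T := by
        have := mem_range.1 hl
        omega
      obtain ⟨-, h2, h3⟩ := hm (i + l) hl'
      have h2' : (0 : ℚ) ≤ a (i + l) := by exact_mod_cast h2
      have h3' : (a (i + l) : ℚ) ≤ (T : ℚ) - 1 := by
        have h4 : (a (i + l) : ℚ) ≤ ((i + l : ℕ) : ℚ) := by exact_mod_cast h3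
        have h5 : (((i + l : ℕ) : ℚ)) + 1 ≤ T := by exact_mod_cast hl'
        linarith
      rw [abs_mul, abs_mul, abs_pow, abs_neg, abs_one, one_pow, one_mul, Nat.abs_cast]
      refine mul_le_mul_of_nonneg_left ?_ (Nat.cast_nonneg _)
      rw [abs_of_nonneg (mul_nonneg h2' (inv_nonneg.2 (hxl0 l).le)), ← div_eq_mul_inv]
      exact div_le_div₀ (h2'.trans h3') h3' hKq (hxl l)
    refine lt_of_le_of_lt ((abs_sum_le_sum_abs _ _).trans (sum_le_sum h1)) ?_
    rw [← sum_mul]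
    have h2 : ∑ l ∈ range (e + 1), ((e.choose l : ℕ) : ℚ) = 2 ^ e := by
      have := Nat.sum_range_choose e
      exact_mod_cast this
    rw [h2, ← mul_div_assoc, div_lt_iff₀ hKq]
    have h3 : (2 : ℚ) ^ (e + 1) * T ≤ K := by exact_mod_cast hT
    have h4 : (0 : ℚ) < 2 ^ e := by positivity
    rw [pow_succ] at h3
    linarith
  have hlt : |((∑ l ∈ range (e + 1), (-1 : ℤ) ^ l * (e.choose l) * m (i + l) : ℤ) : ℚ)| < 1 := by
    rw [hS]
    rw [abs_lt] at hb3 ⊢
    constructor <;> linarith [hb3.1, hb3.2]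
  have hlt' : |∑ l ∈ range (e + 1), (-1 : ℤ) ^ l * (e.choose l) * m (i + l)| < 1 := by
    exact_mod_cast hlt
  exact Int.abs_lt_one_iff.1 hlt'

end Pool.Agent.H108.QS
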