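import Pool.Agent.H108.QS.Stm

set_option autoImplicit false

/-! IB: Newton expansion on an interval (helper782 for helper108). -/

namespace Pool.Agent.H108.QS

open Finset

theorem ib_pow {e l : ℕ} (h : l ≤ e) : (-1 : ℤ) ^ (e - l) = (-1) ^ e * (-1) ^ l := by
  have h1 : (-1 : ℤ) ^ (e - l) * (-1) ^ l = (-1) ^ e := by rw [← pow_add, Nat.sub_add_cancel h]
  have h2 : (-1 : ℤ) ^ l * (-1) ^ l = 1 := by rw [← mul_pow]; norm_num
  calc (-1 : ℤ) ^ (e - l) = (-1) ^ (e - l) * ((-1) ^ l * (-1) ^ l) := by rw [h2, mul_one]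
    _ = _ := by rw [← mul_assoc, h1]

theorem ib_base (e T : ℕ) (m : ℕ → ℤ)
    (h : ∀ i, i + e < T → ∑ l ∈ range (e + 1), (-1 : ℤ) ^ l * (e.choose l) * m (i + l) = 0)
    (i : ℕ) (hi : i + e < T) : (fwdDiff 1)^[e] m i = 0 := by
  rw [fwdDiff_iter_eq_sum_shift]
  have h1 : ∀ k ∈ range (e + 1), ((-1 : ℤ) ^ (e - k) * (e.choose k : ℤ)) • m (i + k • 1) =
      (-1 : ℤ) ^ e * ((-1 : ℤ) ^ k * (e.choose k) * m (i + k)) := by
    intro k hk
    rw [mem_range] at hk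
    rw [ib_pow (by omega : k ≤ e), smul_eq_mul, smul_eq_mul, mul_one]
    ring
  rw [sum_congr rfl h1, ← mul_sum, h i hi, mul_zero]

theorem ib_step (e T : ℕ) (m : ℕ → ℤ)
    (h : ∀ i, i + e < T → ∑ l ∈ range (e + 1), (-1 : ℤ) ^ l * (e.choose l) * m (i + l) = 0)
    (k : ℕ) : ∀ i : ℕ, i + (e + k) < T → (fwdDiff 1)^[e + k] m i = 0 := by
  induction k with
  | zero => exact fun i hi => ib_base e T m h i hi
  | succ k ih =>
    intro i hi
    rw [← add_assoc, Function.iterate_succ_apply']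
    show (fwdDiff 1)^[e + k] m (i + 1) - (fwdDiff 1)^[e + k] m i = 0
    rw [ih (i + 1) (by omega), ih i (by omega), sub_zero]

theorem t_IB : S_IB := by
  intro e T m h
  refine ⟨fun k => (fwdDiff 1)^[k] m 0, fun j hj => ?_⟩
  have h1 := shift_eq_sum_fwdDiff_iter (1 : ℕ) m j 0
  rw [smul_eq_mul, mul_one, zero_add] at h1
  rw [h1]
  have h2 : ∑ k ∈ range (j + 1), j.choose k • (fwdDiff 1)^[k] m 0 =
      ∑ k ∈ range (e + j + 1), (fwdDiff 1)^[k] m 0 * (j.choose k : ℤ) := by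
    rw [sum_congr rfl fun k _ => (by rw [nsmul_eq_mul, mul_comm] :
      j.choose k • (fwdDiff 1)^[k] m 0 = (fwdDiff 1)^[k] m 0 * (j.choose k : ℤ))]
    refine sum_subset (range_subset_range.mpr (by omega)) fun k _ hk => ?_
    rw [mem_range] at hk
    rw [Nat.choose_eq_zero_of_lt (by omega), Nat.cast_zero, mul_zero]
  have h3 : ∑ k ∈ range e, (fwdDiff 1)^[k] m 0 * (j.choose k : ℤ) =
      ∑ k ∈ range (e + j + 1), (fwdDiff 1)^[k] m 0 * (j.choose k : ℤ) := by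
    refine sum_subset (range_subset_range.mpr (by omega)) fun k _ hk => ?_
    rw [mem_range] at hk
    by_cases hkj : k ≤ j
    · obtain ⟨r, rfl⟩ : ∃ r, k = e + r := ⟨k - e, by omega⟩
      rw [ib_step e T m h r 0 (by omega), zero_mul]
    · rw [Nat.choose_eq_zero_of_lt (by omega), Nat.cast_zero, mul_zero]
  rw [h2, h3]

end Pool.Agent.H108.QS
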