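import Pool.Agent.H108.QS.Stm

set_option autoImplicit false

namespace Pool.Agent.H108.QS

open Polynomial

theorem ic_choose (p j k : ℕ) (hp : p.Prime) (hk : k < p) :
    ((j + p).choose k : ℤ) ≡ (j.choose k : ℤ) [ZMOD p] := by
  have : Fact p.Prime := ⟨hp⟩
  have h1 : (j + p).choose k ≡ ((j + p) % p).choose (k % p) * ((j + p) / p).choose (k / p)
      [MOD p] := Choose.choose_modEq_choose_mod_mul_choose_div_nat
  have h2 : j.choose k ≡ (j % p).choose (k % p) * (j / p).choose (k / p)
      [MOD p] := Choose.choose_modEq_choose_mod_mul_choose_div_nat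
  rw [Nat.mod_eq_of_lt hk, Nat.div_eq_of_lt hk, Nat.choose_zero_right, mul_one] at h1 h2
  rw [Nat.add_mod_right] at h1
  exact (Int.natCast_modEq_iff.mpr (h1.trans h2.symm))

theorem ic_dvd (K N e p T : ℕ) (c m : ℕ → ℤ) (hp : p.Prime) (he : e ≤ p)
    (hm : ∀ j < T, m j = ∑ k ∈ Finset.range e, c k * (j.choose k)) (j : ℕ) (hj : j + p < T) :
    (p : ℤ) ∣ (((K : ℤ) + (j + p : ℕ)) * m (j + p) - N) - (((K : ℤ) + j) * m j - N) := by
  have h1 : m (j + p) ≡ m j [ZMOD p] := by
    rw [hm (j + p) hj, hm j (by omega)]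
    apply Int.ModEq.sum
    intro k hk
    exact Int.ModEq.mul_left _ (ic_choose p j k hp (lt_of_lt_of_le (Finset.mem_range.mp hk) he))
  have h2 : ((K : ℤ) + (j + p : ℕ)) ≡ (K : ℤ) + j [ZMOD p] := by
    rw [Int.modEq_iff_dvd]
    push_cast
    exact ⟨-1, by ring⟩
  exact ((h2.mul h1).sub_right (N : ℤ)).symm.dvd

/-- `C(p - 1, k) = (-1) ^ k` modulo `p` -/
theorem ic2_choose (p : ℕ) (hp : p.Prime) : ∀ k < p, ((p - 1).choose k : ZMod p) = (-1) ^ k := by
  intro k
  induction k with
  | zero => intro _; simp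
  | succ k ih =>
    intro hk
    have h1 := ih (by omega)
    have h2 : (p.choose (k + 1) : ZMod p) = 0 := by
      rw [ZMod.natCast_eq_zero_iff]
      exact hp.dvd_choose_self (by omega) hk
    have h3 : p.choose (k + 1) = (p - 1).choose k + (p - 1).choose (k + 1) := by
      obtain ⟨r, rfl⟩ : ∃ r, p = r + 1 := ⟨p - 1, by omega⟩
      rw [Nat.add_sub_cancel, Nat.choose_succ_succ]
    rw [h3] at h2
    push_cast at h2
    rw [h1] at h2
    rw [pow_succ]
    linear_combination h2

/-- a function with the values `0`, `1` on `[0, p)` which is a polynomial of degree less than `p - 1`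
is constant -/
theorem ic2_const (p : ℕ) (hp : p.Prime) (F : ℚ[X]) (hF : F.natDegree < p - 1) (b : ℕ → ℤ)
    (hb : ∀ j < p, b j = 0 ∨ b j = 1) (hFb : ∀ j < p, F.eval (j : ℚ) = p * b j) :
    (∀ j < p, b j = 0) ∨ (∀ j < p, b j = 1) := by
  have hp0 := hp.pos
  have hpQ : (p : ℚ) ≠ 0 := by exact_mod_cast hp0.ne'
  have h1 := congrFun (fwdDiff_iter_eq_zero_of_degree_lt hF) 0
  rw [fwdDiff_iter_eq_sum_shift, Nat.sub_add_cancel hp0] at h1
  have h2 : ∑ k ∈ Finset.range p, (-1 : ℤ) ^ (p - 1 - k) * ((p - 1).choose k) * b k = 0 := by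
    have h3 : (p : ℚ) * ((∑ k ∈ Finset.range p,
        (-1 : ℤ) ^ (p - 1 - k) * ((p - 1).choose k) * b k : ℤ) : ℚ) = 0 := by
      rw [Pi.zero_apply] at h1
      rw [← h1]
      push_cast
      rw [Finset.mul_sum]
      refine Finset.sum_congr rfl fun k hk => ?_
      have h4 := hFb k (Finset.mem_range.1 hk)
      rw [zero_add, nsmul_one, h4, zsmul_eq_mul]
      push_cast
      ring
    have h5 := (mul_eq_zero.1 h3).resolve_left hpQ
    exact_mod_cast h5
  have h6 : ((∑ k ∈ Finset.range p, b k : ℤ) : ZMod p) = 0 := by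
    have h7 := congrArg (fun x : ℤ => (x : ZMod p)) h2
    simp only [Int.cast_zero] at h7
    push_cast at h7 ⊢
    rw [← h7]
    refine Finset.sum_congr rfl fun k hk => ?_
    have hk1 := Finset.mem_range.1 hk
    rw [ic2_choose p hp k hk1, ← pow_add, Nat.sub_add_cancel (by omega)]
    rcases hp.eq_two_or_odd with h8 | h8
    · subst h8
      have : (-1 : ZMod 2) = 1 := by decide
      rw [this, one_pow, one_mul]
    · have h9 : Even (p - 1) := by
        rw [Nat.even_iff]; omega
      rw [h9.neg_one_pow, one_mul]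
  rw [ZMod.intCast_zmod_eq_zero_iff_dvd] at h6
  have h10 : 0 ≤ ∑ k ∈ Finset.range p, b k := Finset.sum_nonneg fun k hk => by
    rcases hb k (Finset.mem_range.1 hk) with h | h <;> omega
  have h11 : ∑ k ∈ Finset.range p, (1 - b k) = p - ∑ k ∈ Finset.range p, b k := by
    rw [Finset.sum_sub_distrib]
    simp
  have h12 : 0 ≤ ∑ k ∈ Finset.range p, (1 - b k) := Finset.sum_nonneg fun k hk => by
    rcases hb k (Finset.mem_range.1 hk) with h | h <;> omega
  obtain ⟨d, hd⟩ := h6
  have hpZ : (0 : ℤ) < p := by exact_mod_cast hp0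
  have hd0 : 0 ≤ d := by
    by_contra hc
    push Not at hc
    nlinarith
  have hd1 : d ≤ 1 := by
    by_contra hc
    push Not at hc
    nlinarith
  have hd2 : d = 0 ∨ d = 1 := by omega
  rcases hd2 with h | h
  · left
    rw [h, mul_zero] at hd
    intro j hj
    exact (Finset.sum_eq_zero_iff_of_nonneg (fun k hk => by
      rcases hb k (Finset.mem_range.1 hk) with h | h <;> omega)).1 hd j (Finset.mem_range.2 hj)
  · right
    rw [h, mul_one] at hd
    rw [hd, sub_self] at h11
    intro j hj
    have := (Finset.sum_eq_zero_iff_of_nonneg (fun k hk => by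
      rcases hb k (Finset.mem_range.1 hk) with h | h <;> omega)).1 h11 j (Finset.mem_range.2 hj)
    omega

/-- the differences `A(X + p) - A(X)` have smaller degree -/
theorem ic2_deg (A : ℚ[X]) (x : ℚ) (e : ℕ) (hA : A.natDegree ≤ e) (he : 1 ≤ e) :
    (A.comp (X + C x) - A).natDegree < e := by
  by_cases h0 : A.natDegree = 0
  · rw [eq_C_of_natDegree_eq_zero h0, C_comp, sub_self, natDegree_zero]
    exact he
  · have hA0 : A ≠ 0 := by
      rintro rfl
      exact h0 natDegree_zero
    have h1 : (A.comp (X + C x)).natDegree = A.natDegree := by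
      rw [natDegree_comp, natDegree_X_add_C, mul_one]
    have h2 : (A.comp (X + C x)).leadingCoeff = A.leadingCoeff := by
      rw [leadingCoeff_comp (by rw [natDegree_X_add_C]; exact one_ne_zero), leadingCoeff_X_add_C,
        one_pow, mul_one]
    have h3 : A.comp (X + C x) ≠ 0 := by
      rw [← leadingCoeff_ne_zero, h2]
      exact leadingCoeff_ne_zero.2 hA0
    have h4 : (A.comp (X + C x)).degree = A.degree := by
      rw [degree_eq_natDegree h3, degree_eq_natDegree hA0, h1]
    have h5 := degree_sub_lt_left h4 h3 h2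
    rw [h4] at h5
    by_cases h6 : A.comp (X + C x) - A = 0
    · rw [h6, natDegree_zero]
      exact he
    · have h7 := (natDegree_lt_natDegree_iff h6).2 h5
      omega

/-- IC2. As IC, with `e < p` only. -/
theorem t_IC2 : ∀ (K N e p T : ℕ) (c m : ℕ → ℤ), 1 ≤ K → 1 ≤ e → p.Prime → e < p →
    2 * p ≤ T → (∀ j < T, m j = ∑ k ∈ Finset.range e, c k * (j.choose k)) →
    (∀ j < T, 0 ≤ ((K : ℤ) + j) * m j - N ∧ ((K : ℤ) + j) * m j - N ≤ j) → N = 0 ∨ N = K := by
  intro K N e p T c m hK he hp hpe hpT hm ha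
  have hp0 : 0 < p := hp.pos
  have hpQ : (p : ℚ) ≠ 0 := by exact_mod_cast hp0.ne'
  set a : ℕ → ℤ := fun j => ((K : ℤ) + j) * m j - N with had
  set M : ℚ[X] := ∑ k ∈ Finset.range e, C ((c k : ℚ) / (k.factorial : ℚ)) * descPochhammer ℚ k
    with hMd
  set A : ℚ[X] := (C (K : ℚ) + X) * M - C (N : ℚ) with hAd
  have hMe : ∀ j < T, M.eval (j : ℚ) = (m j : ℚ) := by
    intro j hj
    rw [hMd, eval_finsetSum, hm j hj]
    push_cast
    refine Finset.sum_congr rfl fun k _ => ?_
    rw [eval_mul, eval_C, descPochhammer_eval_eq_descFactorial,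
      Nat.descFactorial_eq_factorial_mul_choose]
    have : (k.factorial : ℚ) ≠ 0 := by exact_mod_cast k.factorial_ne_zero
    push_cast
    field_simp
  have hAe : ∀ j < T, A.eval (j : ℚ) = (a j : ℚ) := by
    intro j hj
    rw [hAd, eval_sub, eval_mul, eval_add, eval_C, eval_C, eval_X, hMe j hj]
    simp only [had]
    push_cast
    ring
  have hMdeg : M.natDegree ≤ e - 1 := by
    rw [hMd]
    apply natDegree_sum_le_of_forall_le
    intro k hk
    refine (natDegree_C_mul_le _ _).trans ?_
    rw [descPochhammer_natDegree]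
    have := Finset.mem_range.mp hk
    omega
  have hAdeg : A.natDegree ≤ e := by
    rw [hAd]
    refine (natDegree_sub_le _ _).trans (max_le ?_ ?_)
    · refine natDegree_mul_le.trans ?_
      have h1 : (C (K : ℚ) + X : ℚ[X]).natDegree ≤ 1 := by
        refine (natDegree_add_le _ _).trans (max_le ?_ ?_)
        · rw [natDegree_C]; exact Nat.zero_le _
        · exact natDegree_X_le
      omega
    · rw [natDegree_C]; exact Nat.zero_le _
  set F : ℚ[X] := A.comp (X + C (p : ℚ)) - A with hFd
  have hFdeg : F.natDegree < e := ic2_deg A p e hAdeg he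
  have hFe : ∀ j < p, F.eval (j : ℚ) = ((a (j + p) - a j : ℤ) : ℚ) := by
    intro j hj
    rw [hFd, eval_sub, eval_comp, eval_add, eval_X, eval_C, hAe j (by omega)]
    have h1 : (j : ℚ) + (p : ℚ) = ((j + p : ℕ) : ℚ) := by push_cast; ring
    rw [h1, hAe (j + p) (by omega)]
    push_cast
    ring
  have hD : ∀ j < p, a (j + p) - a j = 0 ∨ a (j + p) - a j = p := by
    intro j hj
    obtain ⟨d, hd⟩ := ic_dvd K N e p T c m hp (by omega) hm j (by omega)
    have h1 := ha j (by omega)
    have h2 := ha (j + p) (by omega)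
    have hd' : a (j + p) - a j = p * d := hd
    have h3 : 0 ≤ a j ∧ a j ≤ j := h1
    have h4 : 0 ≤ a (j + p) ∧ a (j + p) ≤ ((j + p : ℕ) : ℤ) := h2
    push_cast at h4
    have hp1 : (0 : ℤ) < p := by exact_mod_cast hp0
    have hj1 : (j : ℤ) < p := by exact_mod_cast hj
    have h5 : -1 < d := by
      by_contra hc
      push Not at hc
      nlinarith
    have h6 : d < 2 := by
      by_contra hc
      push Not at hc
      nlinarith
    have h7 : d = 0 ∨ d = 1 := by omega
    rcases h7 with h7 | h7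
    · left; rw [hd', h7, mul_zero]
    · right; rw [hd', h7, mul_one]
  -- `F` is constant
  have key : ∀ (v : ℤ), (∀ j < p, a (j + p) - a j = v) → F = C (v : ℚ) := by
    intro v hS
    have h1 : F - C (v : ℚ) = 0 := by
      apply eq_zero_of_natDegree_lt_card_of_eval_eq_zero' _
        ((Finset.range p).image (fun j : ℕ => (j : ℚ)))
      · intro x hx
        obtain ⟨j, hj, rfl⟩ := Finset.mem_image.mp hx
        have hj := Finset.mem_range.1 hj
        rw [eval_sub, eval_C, hFe j hj, hS j hj, sub_self]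
      · rw [Finset.card_image_of_injective _ Nat.cast_injective, Finset.card_range]
        refine lt_of_le_of_lt ?_ hpe
        refine (natDegree_sub_le _ _).trans (max_le hFdeg.le ?_)
        rw [natDegree_C]; exact Nat.zero_le _
    exact sub_eq_zero.mp h1
  have hF : ∃ ε : ℤ, (ε = 0 ∨ ε = 1) ∧ F = C ((ε : ℚ) * p) := by
    have hbx : ∀ j : ℕ, ∃ b : ℤ, j < p → ((b = 0 ∨ b = 1) ∧ a (j + p) - a j = p * b) := by
      intro j
      by_cases hj : j < p
      · rcases hD j hj with h | h
        · exact ⟨0, fun _ => ⟨Or.inl rfl, by rw [h, mul_zero]⟩⟩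
        · exact ⟨1, fun _ => ⟨Or.inr rfl, by rw [h, mul_one]⟩⟩
      · exact ⟨0, fun h => absurd h hj⟩
    choose b hb using hbx
    rcases ic2_const p hp F (by omega) b (fun j hj => (hb j hj).1) (fun j hj => by
      rw [hFe j hj, (hb j hj).2]; push_cast; ring) with h | h
    · refine ⟨0, Or.inl rfl, ?_⟩
      rw [key 0 (fun j hj => by rw [(hb j hj).2, h j hj, mul_zero])]
      push_cast
      rw [zero_mul]
    · refine ⟨1, Or.inr rfl, ?_⟩
      rw [key p (fun j hj => by rw [(hb j hj).2, h j hj, mul_one])]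
      push_cast
      rw [one_mul]
  obtain ⟨ε, hε, hF⟩ := hF
  set G : ℚ[X] := A - C (ε : ℚ) * X with hGd
  have hGe : ∀ x : ℚ, G.eval x = A.eval x - ε * x := by
    intro x
    simp only [hGd, eval_sub, eval_mul, eval_C, eval_X]
  have hGp : ∀ x : ℚ, G.eval (x + p) = G.eval x := by
    intro x
    have h1 := congrArg (eval x) hF
    simp only [hFd, eval_sub, eval_comp, eval_add, eval_X, eval_C] at h1
    rw [hGe, hGe]
    linear_combination h1
  have hG0 : G.eval 0 = 0 := by
    have h1 := hAe 0 (by omega)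
    have h2 : 0 ≤ a 0 ∧ a 0 ≤ ((0 : ℕ) : ℤ) := ha 0 (by omega)
    have h3 : a 0 = 0 := by
      have := h2.1
      have := h2.2
      push_cast at this
      omega
    rw [Nat.cast_zero, h3] at h1
    rw [hGe, h1]
    push_cast
    ring
  have hGn : ∀ n : ℕ, G.eval ((n : ℚ) * p) = 0 := by
    intro n
    induction n with
    | zero => rw [Nat.cast_zero, zero_mul, hG0]
    | succ n ih =>
      have : ((n + 1 : ℕ) : ℚ) * p = (n : ℚ) * p + p := by push_cast; ring
      rw [this, hGp, ih]
  have hG : G = 0 := by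
    apply eq_zero_of_infinite_isRoot
    apply Set.Infinite.mono (s := Set.range (fun n : ℕ => (n : ℚ) * p))
    · rintro x ⟨n, rfl⟩
      exact hGn n
    · apply Set.infinite_range_of_injective
      intro x y hxy
      have h1 : (x : ℚ) * p = (y : ℚ) * p := hxy
      have h2 := mul_right_cancel₀ hpQ h1
      exact_mod_cast h2
  have h9 := congrArg (eval (-(K : ℚ))) hG
  rw [hGe, eval_zero] at h9
  have h10 : A.eval (-(K : ℚ)) = -(N : ℚ) := by
    simp only [hAd, eval_sub, eval_mul, eval_add, eval_C, eval_X]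
    ring
  rw [h10] at h9
  rcases hε with h | h
  · left
    rw [h] at h9
    push_cast at h9
    have : (N : ℚ) = 0 := by linarith
    exact_mod_cast this
  · right
    rw [h] at h9
    push_cast at h9
    have : (N : ℚ) = K := by linarith
    exact_mod_cast this

end Pool.Agent.H108.QS
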