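import Pool.Agent.H108.QS.Stm

set_option autoImplicit false

/-!
# The size of the value of a cyclotomic polynomial (helper977 for helper108)
-/

namespace Pool.Agent.H108.QS

open Polynomial

theorem zb_cast (q m : ℕ) :
    (((cyclotomic m ℤ).eval (q : ℤ) : ℤ) : ℝ) = (cyclotomic m ℝ).eval (q : ℝ) := by
  have h := cyclotomic.eval_apply (q : ℤ) m (Int.castRingHom ℝ)
  simpa using h.symm

theorem zb_two_pow (P : ℕ) (hP : 5 ≤ P) : 3 * (P : ℝ) < 2 ^ P - 1 := by
  induction P, hP using Nat.le_induction with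
  | base => norm_num
  | succ n hn ih =>
    rw [pow_succ]
    push_cast
    have h1 : (5 : ℝ) ≤ n := by exact_mod_cast hn
    linarith

theorem t_ZB : S_ZB := by
  intro q m P s d hq hm hP hs hmP hPd hd
  have hP2 := hP.two_le
  have hd0 : 0 < d := by
    rcases Nat.eq_zero_or_pos d with h | h
    · rw [h] at hPd
      simp at hPd
    · exact h
  have hqR : (2 : ℝ) ≤ q := by exact_mod_cast hq
  have key : (P : ℝ) < (cyclotomic m ℝ).eval (q : ℝ) := by
    rcases Nat.lt_or_ge s 2 with hs2 | hs2
    · have hs1 : s = 1 := by omega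
      rw [hs1, pow_one] at hmP
      have hP5 : 5 ≤ P := by
        by_contra hcon
        have hd1 : d ≤ P - 1 := Nat.le_of_dvd (by omega) hd
        have h4 : P ≠ 4 := by
          rintro rfl
          exact absurd hP (by norm_num)
        have hP3 : P ≤ 3 := by omega
        have h5 : P * d ≤ 3 * 2 := Nat.mul_le_mul hP3 (by omega)
        omega
      rcases Nat.lt_or_ge q 3 with hq3 | hq3
      · have hq2 : (q : ℝ) = 2 := by
          have : q = 2 := by omega
          rw [this]
          norm_num
        rw [hq2]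
        have h1 := cyclotomic_expand_eq_cyclotomic_mul hP hPd ℝ
        have h2 := congrArg (eval (2 : ℝ)) h1
        rw [expand_eval, eval_mul, Nat.mul_comm d P, ← hmP] at h2
        have h3 : (3 * (P : ℝ)) ^ Nat.totient d < (2 ^ P - 1) ^ Nat.totient d :=
          pow_lt_pow_left₀ (zb_two_pow P hP5) (by positivity) (Nat.totient_pos.2 hd0).ne'
        have hx : (1 : ℝ) < 2 ^ P := one_lt_pow₀ (by norm_num) (by omega)
        have h4 := sub_one_pow_totient_le_cyclotomic_eval hx d
        have h5 := cyclotomic_eval_le_add_one_pow_totient (q := 2) (by norm_num) d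
        have h6 : 0 ≤ (cyclotomic m ℝ).eval 2 := cyclotomic_nonneg m (by norm_num)
        have h7 : (cyclotomic m ℝ).eval 2 * (cyclotomic d ℝ).eval 2 ≤
            (cyclotomic m ℝ).eval 2 * 3 ^ Nat.totient d := by
          refine mul_le_mul_of_nonneg_left ?_ h6
          calc (cyclotomic d ℝ).eval 2 ≤ (2 + 1 : ℝ) ^ Nat.totient d := h5
            _ = 3 ^ Nat.totient d := by norm_num
        have h8 : (P : ℝ) ^ Nat.totient d * 3 ^ Nat.totient d <
            (cyclotomic m ℝ).eval 2 * 3 ^ Nat.totient d := by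
          rw [← mul_pow, mul_comm (P : ℝ) 3]
          linarith
        have h9 : (P : ℝ) ^ Nat.totient d < (cyclotomic m ℝ).eval 2 :=
          lt_of_mul_lt_mul_right h8 (by positivity)
        have h10 : (P : ℝ) ≤ (P : ℝ) ^ Nat.totient d :=
          le_self_pow₀ (by exact_mod_cast hP.one_le) (Nat.totient_pos.2 hd0).ne'
        linarith
      · have hq3R : (3 : ℝ) ≤ q := by exact_mod_cast hq3
        have h1 := sub_one_pow_totient_lt_cyclotomic_eval (n := m) (q := (q : ℝ)) (by omega)
          (by linarith)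
        have h2 : P - 1 ≤ m.totient := by
          rw [← Nat.totient_prime hP]
          exact Nat.le_of_dvd (Nat.totient_pos.2 (by omega)) (Nat.totient_dvd_of_dvd ⟨d, hmP⟩)
        have h3 : (2 : ℝ) ^ (P - 1) ≤ ((q : ℝ) - 1) ^ m.totient :=
          (pow_le_pow_right₀ (by norm_num) h2).trans
            (pow_le_pow_left₀ (by norm_num) (by linarith) _)
        have h4 : P - 1 < 2 ^ (P - 1) := Nat.lt_two_pow_self
        have h5 : P ≤ 2 ^ (P - 1) := by omega
        have h6 : (P : ℝ) ≤ 2 ^ (P - 1) := by exact_mod_cast h5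
        linarith
    · obtain ⟨u, rfl⟩ : ∃ u, s = u + 2 := ⟨s - 2, by omega⟩
      obtain ⟨m', hm'⟩ : ∃ m', m' = P ^ (u + 1) * d := ⟨_, rfl⟩
      have hmm : m' * P = m := by
        rw [hm', hmP]
        ring
      have hdiv : P ∣ m' := by
        rw [hm']
        exact Dvd.dvd.mul_right (dvd_pow_self P (by omega)) d
      have h1 := cyclotomic_expand_eq_cyclotomic hP hdiv ℝ
      have h2 := congrArg (eval (q : ℝ)) h1
      rw [expand_eval, hmm] at h2
      rw [← h2]
      have hm0 : 0 < m' := by
        rcases Nat.eq_zero_or_pos m' with h | h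
        · rw [h] at hmm
          omega
        · exact h
      have hm'2 : 2 ≤ m' := le_trans hP2 (Nat.le_of_dvd hm0 hdiv)
      have hx : (2 : ℝ) ^ P ≤ (q : ℝ) ^ P := pow_le_pow_left₀ (by norm_num) hqR P
      have h4 : P + 1 ≤ 2 ^ P := Nat.lt_two_pow_self
      have h5 : (P : ℝ) + 1 ≤ 2 ^ P := by exact_mod_cast h4
      have hPR : (2 : ℝ) ≤ P := by exact_mod_cast hP2
      have h3 := sub_one_pow_totient_lt_cyclotomic_eval (n := m') (q := (q : ℝ) ^ P) hm'2
        (by linarith)
      have h6 : (q : ℝ) ^ P - 1 ≤ ((q : ℝ) ^ P - 1) ^ m'.totient :=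
        le_self_pow₀ (by linarith) (Nat.totient_pos.2 (by omega)).ne'
      linarith
  rw [← zb_cast] at key
  exact_mod_cast key

end Pool.Agent.H108.QS
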