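import Pool.Agent.H108.QS.ZA
import Pool.Agent.H108.QS.ZB
import Pool.Agent.H108.QS.CA
import Pool.Agent.H108.QS.CB
import Pool.Agent.H108.QS.IA
import Pool.Agent.H108.QS.IB
import Pool.Agent.H108.QS.IC2

set_option autoImplicit false

namespace Pool.Agent.H108.QS

open Polynomial

theorem zsig (q m : ℕ) (hq : 2 ≤ q) (hm : 7 ≤ m) :
    ∃ p : ℕ, p.Prime ∧ orderOf (q : ZMod p) = m := by
  by_contra hcon
  push Not at hcon
  obtain ⟨P, s, d, hP, hs, hmd, hPd, hd, he⟩ := t_ZA q m hq hm hcon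
  have := t_ZB q m P s d hq hm hP hs hmd hPd hd
  omega

/-- the order is a divisor of `p - 1` -/
theorem order_lt {q m p : ℕ} (hp : p.Prime) (hm : 1 ≤ m) (h : orderOf (q : ZMod p) = m) :
    m < p := by
  have : Fact p.Prime := ⟨hp⟩
  have hq : (q : ZMod p) ≠ 0 := by
    intro h0
    rw [h0] at h
    have h1 : orderOf (0 : ZMod p) = 0 := orderOf_zero (ZMod p)
    omega
  have h2 : orderOf (q : ZMod p) ∣ p - 1 := orderOf_dvd_of_pow_eq_one (ZMod.pow_card_sub_one_eq_one hq)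
  rw [h] at h2
  have h3 := Nat.le_of_dvd (by have := hp.two_le; omega) h2
  have := hp.two_le
  omega

theorem dvd_pow_iff {q m p n : ℕ} (hq : 1 ≤ q) (h : orderOf (q : ZMod p) = m) :
    p ∣ q ^ n - 1 ↔ m ∣ n := by
  rw [← h, orderOf_dvd_iff_pow_eq_one]
  have h1 : 1 ≤ q ^ n := Nat.one_le_pow _ _ hq
  rw [← ZMod.natCast_eq_zero_iff, Nat.cast_sub h1, Nat.cast_pow, Nat.cast_one, sub_eq_zero]

theorem div_step {q K N lam r j p : ℕ} (hq : 1 ≤ q) (hp : p.Prime)
    (h : orderOf (q : ZMod p) = K + j) (hl : ¬ p ∣ lam)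
    (he : lam * ∏ s ∈ Finset.range (j + 1), (q ^ (N + s) - 1) =
      r * ∏ s ∈ Finset.range (j + 1), (q ^ (K + s) - 1)) :
    ∃ a ≤ j, (K + j) ∣ (N + a) := by
  have h1 : p ∣ ∏ s ∈ Finset.range (j + 1), (q ^ (K + s) - 1) := by
    refine Dvd.dvd.trans ?_ (Finset.dvd_prod_of_mem _ (Finset.mem_range.2 (Nat.lt_succ_self j)))
    exact (dvd_pow_iff hq h).2 dvd_rfl
  have h2 : p ∣ lam * ∏ s ∈ Finset.range (j + 1), (q ^ (N + s) - 1) := by
    rw [he]
    exact h1.mul_left _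
  rcases (Nat.Prime.dvd_mul hp).1 h2 with h3 | h3
  · exact absurd h3 hl
  · obtain ⟨a, ha, hpa⟩ := (Prime.dvd_finsetProd_iff hp.prime _).1 h3
    exact ⟨a, by have := Finset.mem_range.1 ha; omega, (dvd_pow_iff hq h).1 hpa⟩

/-- the product `∏ (q ^ w - q ^ s)` over `s < j + 1` -/
theorem prod_form (q w j : ℕ) (hw : j ≤ w) :
    ∏ s : Fin (j + 1), (q ^ w - q ^ (s : ℕ)) =
      q ^ (∑ s ∈ Finset.range (j + 1), s) * ∏ s ∈ Finset.range (j + 1), (q ^ (w - j + s) - 1) := by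
  rw [Fin.prod_univ_eq_prod_range (fun s => q ^ w - q ^ s) (j + 1)]
  have h1 : ∀ s ∈ Finset.range (j + 1), q ^ w - q ^ s = q ^ s * (q ^ (w - s) - 1) := by
    intro s hs
    have := Finset.mem_range.1 hs
    rw [Nat.mul_sub, ← pow_add, mul_one, Nat.add_sub_cancel' (by omega)]
  rw [Finset.prod_congr rfl h1, Finset.prod_mul_distrib, Finset.prod_pow_eq_pow_sum]
  congr 1
  rw [← Finset.prod_range_reflect]
  refine Finset.prod_congr rfl fun s hs => ?_
  have := Finset.mem_range.1 hs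
  congr 2
  omega

theorem exists_sub (F V : Type) [Field F] [AddCommGroup V] [Module F V] [FiniteDimensional F V]
    (i : ℕ) (hi : i ≤ Module.finrank F V) : ∃ I : Submodule F V, Module.finrank F I = i := by
  have b := Module.finBasis F V
  have hli : LinearIndependent F (fun s : Fin i => b (Fin.castLE hi s)) :=
    b.linearIndependent.comp _ (Fin.castLE_injective hi)
  refine ⟨Submodule.span F (Set.range (fun s : Fin i => b (Fin.castLE hi s))), ?_⟩
  rw [finrank_span_eq_card hli, Fintype.card_fin]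

theorem residues (F V ι : Type) [Field F] [Finite F]
    [AddCommGroup V] [Module F V] [FiniteDimensional F V] [Finite ι] (t k lam : ℕ)
    (B : ι → Submodule F V) (hB : IsSubspaceDesign F V ι t k lam B) (htk : t < k)
    (hkn : k ≤ Module.finrank F V) (hlam : ∀ p : ℕ, p.Prime → p ∣ lam → p ≤ k - t + 1)
    (j : ℕ) (hj : j < t) (h7 : 7 ≤ k - t + 1 + j) :
    ∃ a ≤ j, (k - t + 1 + j) ∣ (Module.finrank F V - t + 1 + a) := by
  obtain ⟨I, hI⟩ := exists_sub F V (t - 1 - j) (by omega)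
  obtain ⟨r, hr⟩ := t_CB t_CA F V ι t k lam (t - 1 - j) B I hB htk.le hkn (by omega) hI
  set q := Nat.card F with hq
  set n := Module.finrank F V with hn
  have hq2 : 2 ≤ q := Finite.one_lt_card
  have e1 : t - (t - 1 - j) = j + 1 := by omega
  rw [e1] at hr
  rw [prod_form q (n - (t - 1 - j)) j (by omega), prod_form q (k - (t - 1 - j)) j (by omega)] at hr
  have e2 : n - (t - 1 - j) - j = n - t + 1 := by omega
  have e3 : k - (t - 1 - j) - j = k - t + 1 := by omega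
  rw [e2, e3] at hr
  have hpos : 0 < q ^ (∑ s ∈ Finset.range (j + 1), s) := by positivity
  have h4 : lam * ∏ s ∈ Finset.range (j + 1), (q ^ (n - t + 1 + s) - 1) =
      r * ∏ s ∈ Finset.range (j + 1), (q ^ (k - t + 1 + s) - 1) := by
    apply Nat.eq_of_mul_eq_mul_left hpos
    calc _ = lam * (q ^ (∑ s ∈ Finset.range (j + 1), s) *
          ∏ s ∈ Finset.range (j + 1), (q ^ (n - t + 1 + s) - 1)) := by ring
      _ = r * (q ^ (∑ s ∈ Finset.range (j + 1), s) *
          ∏ s ∈ Finset.range (j + 1), (q ^ (k - t + 1 + s) - 1)) := hr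
      _ = _ := by ring
  obtain ⟨p, hp, hord⟩ := zsig q (k - t + 1 + j) hq2 h7
  have hlt := order_lt hp (by omega) hord
  refine div_step (by omega) hp hord ?_ h4
  intro hpl
  have := hlam p hp hpl
  omega

/-- the arithmetic part -/
theorem arith (K N e p : ℕ) (he : 1 ≤ e) (hp : p.Prime) (hep : e < p)
    (hK : 2 ^ (e + 2) * p ≤ K) (hNK : K < N)
    (hres : ∀ j < 2 * p, ∃ a ≤ j, (K + j) ∣ (N + a)) :
    K ^ (e + 1) ≤ 2 * e.factorial * N := by
  by_contra hcon
  push Not at hcon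
  have h1 : ∀ j : ℕ, ∃ m a : ℤ, j < 2 * p → (((K : ℤ) + j) * m = N + a ∧ 0 ≤ a ∧ a ≤ j) := by
    intro j
    by_cases hj : j < 2 * p
    · obtain ⟨a, ha, m, hm⟩ := hres j hj
      refine ⟨m, a, fun _ => ⟨?_, by positivity, by exact_mod_cast ha⟩⟩
      exact_mod_cast hm.symm
    · exact ⟨0, 0, fun h => absurd h hj⟩
  choose m a hma using h1
  have hKT : 2 ^ (e + 1) * (2 * p) ≤ K := by
    calc 2 ^ (e + 1) * (2 * p) = 2 ^ (e + 2) * p := by ring
      _ ≤ K := hK
  have hfd := t_IA K N e (2 * p) m a he hKT hcon (fun j hj => hma j hj)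
  obtain ⟨c, hc⟩ := t_IB e (2 * p) m hfd
  have hK1 : 1 ≤ K := by
    have : 1 ≤ 2 ^ (e + 2) * p := Nat.mul_pos (by positivity) hp.pos
    omega
  rcases t_IC2 K N e p (2 * p) c m hK1 he hp hep le_rfl hc (fun j hj => by
    obtain ⟨h2, h3, h4⟩ := hma j hj
    constructor <;> linarith) with h | h <;> omega

/-- the classical divisibility conditions imply the residue conditions -/
theorem residues_of_dvd (q K N t : ℕ) (hq : 2 ≤ q) (hK : 7 ≤ K)
    (h : ∀ j < t, (∏ s ∈ Finset.range (j + 1), (q ^ (K + s) - 1)) ∣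
      ∏ s ∈ Finset.range (j + 1), (q ^ (N + s) - 1)) :
    ∀ j < t, ∃ a ≤ j, (K + j) ∣ (N + a) := by
  intro j hj
  obtain ⟨r, hr⟩ := h j hj
  obtain ⟨p, hp, hord⟩ := zsig q (K + j) hq (by omega)
  refine div_step (lam := 1) (r := r) (by omega) hp hord ?_ ?_
  · intro h1
    exact hp.one_lt.ne' (Nat.dvd_one.1 h1)
  · rw [one_mul, hr, mul_comm]

end Pool.Agent.H108.QS
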