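import Pool.Agent.H108.QS.Stm2

set_option autoImplicit false

namespace Pool.Agent.H108.QS

open Polynomial

theorem cv_pow (q : ℤ) (n M : ℕ) (hn : 1 ≤ n) (hM : n ≤ M) :
    q ^ n - 1 = ∏ m ∈ Finset.Icc 1 M, if m ∣ n then (cyclotomic m ℤ).eval q else 1 := by
  have h1 : (∏ m ∈ n.divisors, cyclotomic m ℤ) = X ^ n - 1 :=
    prod_cyclotomic_eq_X_pow_sub_one (by omega) ℤ
  have h2 := congrArg (fun p : ℤ[X] => p.eval q) h1
  simp only [eval_prod, eval_sub, eval_pow, eval_X, eval_one] at h2
  rw [← h2, ← Finset.prod_filter]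
  refine Finset.prod_congr ?_ fun _ _ => rfl
  ext m
  simp only [Nat.mem_divisors, Finset.mem_filter, Finset.mem_Icc]
  constructor
  · rintro ⟨h3, h4⟩
    have h5 := Nat.le_of_dvd (by omega) h3
    have h6 := Nat.pos_of_dvd_of_pos h3 (by omega)
    exact ⟨⟨by omega, by omega⟩, h3⟩
  · rintro ⟨_, h3⟩
    exact ⟨h3, by omega⟩

theorem cv_prod (q : ℤ) (K j M : ℕ) (hK : 1 ≤ K) (hM : K + j ≤ M) :
    ∏ s ∈ Finset.range (j + 1), (q ^ (K + s) - 1) =
      ∏ m ∈ Finset.Icc 1 M, (cyclotomic m ℤ).eval q ^
        ((Finset.range (j + 1)).filter fun s => m ∣ K + s).card := by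
  have h1 : ∀ s ∈ Finset.range (j + 1), q ^ (K + s) - 1 =
      ∏ m ∈ Finset.Icc 1 M, if m ∣ K + s then (cyclotomic m ℤ).eval q else 1 := by
    intro s hs
    rw [Finset.mem_range] at hs
    exact cv_pow q (K + s) M (by omega) (by omega)
  rw [Finset.prod_congr rfl h1, Finset.prod_comm]
  refine Finset.prod_congr rfl fun m _ => ?_
  rw [← Finset.prod_filter, Finset.prod_const]

theorem cv_count (K N j m : ℕ) (h : ∀ i ≤ j, ∃ a ≤ i, (K + i) ∣ (N + a)) :
    ((Finset.range (j + 1)).filter fun s => m ∣ K + s).card ≤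
      ((Finset.range (j + 1)).filter fun s => m ∣ N + s).card := by
  by_cases hne : ((Finset.range (j + 1)).filter fun s => m ∣ K + s).Nonempty
  · have hmem := Finset.min'_mem _ hne
    have hmin : ∀ s ∈ (Finset.range (j + 1)).filter fun s => m ∣ K + s,
        ((Finset.range (j + 1)).filter fun s => m ∣ K + s).min' hne ≤ s :=
      fun s hs => Finset.min'_le _ s hs
    generalize ((Finset.range (j + 1)).filter fun s => m ∣ K + s).min' hne = s1 at hmem hmin
    rw [Finset.mem_filter, Finset.mem_range] at hmem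
    obtain ⟨a, ha, hdvd⟩ := h s1 (by omega)
    have hma : m ∣ N + a := hmem.2.trans hdvd
    refine Finset.card_le_card_of_injOn (fun s => s - s1 + a) ?_ ?_
    · intro s hs
      have h1 := hmin s hs
      have hs' := Finset.mem_filter.1 (Finset.mem_coe.1 hs)
      have h2 := Finset.mem_range.1 hs'.1
      refine Finset.mem_coe.2 (Finset.mem_filter.2 ⟨Finset.mem_range.2 ?_, ?_⟩)
      · simp only
        omega
      · have h3 : m ∣ s - s1 := by
          have h4 := Nat.dvd_sub hs'.2 hmem.2
          have h5 : K + s - (K + s1) = s - s1 := by omega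
          rwa [h5] at h4
        have h6 : N + (s - s1 + a) = (N + a) + (s - s1) := by omega
        show m ∣ N + (s - s1 + a)
        rw [h6]
        exact Nat.dvd_add hma h3
    · intro s hs s' hs' heq
      have h1 := hmin s hs
      have h2 := hmin s' hs'
      simp only at heq
      omega
  · rw [Finset.not_nonempty_iff_eq_empty] at hne
    rw [hne, Finset.card_empty]
    exact Nat.zero_le _

theorem t_CV : S_CV := by
  intro q K N t hK hN h j hj
  rw [cv_prod q K j (max (K + j) (N + j)) hK (le_max_left _ _),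
    cv_prod q N j (max (K + j) (N + j)) hN (le_max_right _ _)]
  refine Finset.prod_dvd_prod_of_dvd _ _ fun m _ => ?_
  exact pow_dvd_pow _ (cv_count K N j m fun i hi => h i (by omega))

end Pool.Agent.H108.QS
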