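import Pool.Agent.H108.QS.Stm2

set_option autoImplicit false

namespace Pool.Agent.H108.QS

theorem iu_fact (e : ℕ) : e.factorial ≤ 2 ^ (e * e) := by
  induction e with
  | zero => simp
  | succ n ih =>
    rw [Nat.factorial_succ]
    calc (n + 1) * n.factorial ≤ 2 ^ (n + 1) * 2 ^ (n * n) :=
          Nat.mul_le_mul Nat.lt_two_pow_self.le ih
      _ = 2 ^ (n + 1 + n * n) := (pow_add 2 (n + 1) (n * n)).symm
      _ ≤ 2 ^ ((n + 1) * (n + 1)) := Nat.pow_le_pow_right (by norm_num) (by nlinarith)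

theorem iu_sq {e K : ℕ} (hK : 2 ^ (2 * e + 2) ≤ K) : (2 * e.factorial) ^ 2 ≤ K ^ (e + 1) := by
  calc (2 * e.factorial) ^ 2 ≤ (2 * 2 ^ (e * e)) ^ 2 :=
        Nat.pow_le_pow_left (Nat.mul_le_mul le_rfl (iu_fact e)) 2
    _ = 2 ^ (2 + 2 * (e * e)) := by
        rw [mul_pow, ← pow_mul, ← pow_add, mul_comm (e * e) 2]
    _ ≤ 2 ^ ((2 * e + 2) * (e + 1)) := Nat.pow_le_pow_right (by norm_num) (by nlinarith)
    _ = (2 ^ (2 * e + 2)) ^ (e + 1) := by rw [pow_mul]
    _ ≤ K ^ (e + 1) := Nat.pow_le_pow_left hK _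

theorem iu_half {e : ℕ} (he : 1 ≤ e) : 2 ^ (e + 2) * (2 * e) ≤ 2 ^ (2 * e + 2) := by
  have h1 : 2 * e ≤ 2 ^ e := by
    obtain ⟨k, rfl⟩ : ∃ k, e = k + 1 := ⟨e - 1, by omega⟩
    have := @Nat.lt_two_pow_self k
    rw [pow_succ]
    omega
  calc 2 ^ (e + 2) * (2 * e) ≤ 2 ^ (e + 2) * 2 ^ e := Nat.mul_le_mul le_rfl h1
    _ = 2 ^ (2 * e + 2) := by
        rw [← pow_add]
        congr 1
        ring

theorem iu_main {K N t : ℕ} (hK : 16 ≤ K) (ht : 4 ≤ t)
    (h : ∀ e p : ℕ, 1 ≤ e → p.Prime → e < p → 2 * p ≤ t → 2 ^ (e + 2) * p ≤ K →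
      K ^ (e + 1) ≤ 2 * e.factorial * N) :
    ∃ e : ℕ, K ^ (e + 1) ≤ N ^ 2 ∧ min (t : ℝ) (Real.log K) ≤ 4 * ((e : ℝ) + 1) := by
  set L := Nat.log 2 K with hL
  have hK0 : K ≠ 0 := by omega
  have hLK : 2 ^ L ≤ K := Nat.pow_log_le_self 2 hK0
  have hKL : K < 2 ^ (L + 1) := Nat.lt_pow_succ_log_self (by norm_num) K
  have hL4 : 4 ≤ L := by
    by_contra hc
    have h1 : 2 ^ (L + 1) ≤ 2 ^ 4 := Nat.pow_le_pow_right (by norm_num) (by omega)
    norm_num at h1
    omega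
  set e := min (t / 4) ((L - 2) / 2) with he
  have he1 : 1 ≤ e := by omega
  have het : 4 * e ≤ t := by omega
  have heL : 2 * e + 2 ≤ L := by omega
  have h2K : 2 ^ (2 * e + 2) ≤ K := (Nat.pow_le_pow_right (by norm_num) heL).trans hLK
  obtain ⟨p, hp, hp1, hp2⟩ := Nat.exists_prime_lt_and_le_two_mul e (by omega)
  have h1 := h e p he1 hp hp1 (by omega)
    ((Nat.mul_le_mul le_rfl hp2).trans ((iu_half he1).trans h2K))
  refine ⟨e, ?_, ?_⟩
  · have h3 : K ^ (e + 1) * K ^ (e + 1) ≤ K ^ (e + 1) * N ^ 2 := by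
      calc K ^ (e + 1) * K ^ (e + 1) = (K ^ (e + 1)) ^ 2 := by ring
        _ ≤ (2 * e.factorial * N) ^ 2 := Nat.pow_le_pow_left h1 2
        _ = (2 * e.factorial) ^ 2 * N ^ 2 := by ring
        _ ≤ K ^ (e + 1) * N ^ 2 := Nat.mul_le_mul (iu_sq h2K) le_rfl
    exact Nat.le_of_mul_le_mul_left h3 (by positivity)
  · rcases le_total (t / 4) ((L - 2) / 2) with hc | hc
    · have h4 : t ≤ 4 * (e + 1) := by omega
      refine (min_le_left _ _).trans ?_
      exact_mod_cast h4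
    · have h4 : L + 1 ≤ 4 * (e + 1) := by omega
      refine (min_le_right _ _).trans ?_
      have h5 : Real.log K ≤ L + 1 := by
        have h6 : (K : ℝ) ≤ 2 ^ (L + 1) := by exact_mod_cast hKL.le
        have h7 := Real.log_le_log (by exact_mod_cast (by omega : 0 < K)) h6
        rw [Real.log_pow] at h7
        have h8 := Real.log_two_lt_d9
        have h9 : (0 : ℝ) ≤ L := Nat.cast_nonneg L
        push_cast at h7
        nlinarith
      have h6 : ((L : ℝ) + 1) ≤ 4 * ((e : ℝ) + 1) := by exact_mod_cast h4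
      exact h5.trans h6

theorem t_IU : S_IU := by
  intro K N t hK hKN h
  have hK1 : (1 : ℝ) ≤ K := by exact_mod_cast hK
  have hKN' : (K : ℝ) ≤ N := by exact_mod_cast hKN
  have small : min (t : ℝ) (Real.log K) / 8 ≤ 1 → (K : ℝ) ^ (min (t : ℝ) (Real.log K) / 8) ≤ N := by
    intro hs
    refine (Real.rpow_le_rpow_of_exponent_le hK1 hs).trans ?_
    rwa [Real.rpow_one]
  by_cases ht : 4 ≤ t
  · by_cases hK16 : 16 ≤ K
    · obtain ⟨e, h1, h2⟩ := iu_main hK16 ht h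
      have h3 : min (t : ℝ) (Real.log K) / 8 ≤ ((e : ℝ) + 1) / 2 := by linarith
      refine (Real.rpow_le_rpow_of_exponent_le hK1 h3).trans ?_
      have h4 : ((K : ℝ) ^ (((e : ℝ) + 1) / 2)) ^ 2 ≤ (N : ℝ) ^ 2 := by
        rw [← Real.rpow_natCast, ← Real.rpow_mul (by linarith)]
        have h5 : ((e : ℝ) + 1) / 2 * ((2 : ℕ) : ℝ) = ((e + 1 : ℕ) : ℝ) := by
          push_cast
          ring
        rw [h5, Real.rpow_natCast]
        exact_mod_cast h1
      exact le_of_sq_le_sq h4 (by positivity)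
    · apply small
      have h1 : Real.log K ≤ 4 := by
        have h2 : (K : ℝ) ≤ 2 ^ 4 := by
          have : K ≤ 2 ^ 4 := by norm_num; omega
          exact_mod_cast this
        have h3 := Real.log_le_log (by linarith) h2
        rw [Real.log_pow] at h3
        have h4 := Real.log_two_lt_d9
        push_cast at h3
        linarith
      have := min_le_right (t : ℝ) (Real.log K)
      linarith
  · apply small
    have h1 : (t : ℝ) ≤ 4 := by
      have : t ≤ 4 := by omega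
      exact_mod_cast this
    have := min_le_left (t : ℝ) (Real.log K)
    linarith

end Pool.Agent.H108.QS
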