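import Mathlib

set_option autoImplicit false

/-!
# Subspace designs (q-analogues of designs): statements of the steps

Throughout `q` is a prime power, `K = k - t + 1`, `N = n - t + 1`.
-/

namespace Pool.Agent.H108.QS

open Polynomial

/-- The subspaces `B i` of `V` are the blocks (repeated blocks are allowed) of a subspace design: all
have dimension `k`, and every subspace of dimension `t` is contained in exactly `lam` of them. -/
structure IsSubspaceDesign (F V ι : Type) [Field F] [AddCommGroup V] [Module F V] (t k lam : ℕ)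
    (B : ι → Submodule F V) : Prop where
  dim : ∀ i, Module.finrank F (B i) = k
  cover : ∀ T : Submodule F V, Module.finrank F T = t → Nat.card {i : ι // T ≤ B i} = lam

/-- ZA. If no prime `p` is such that `q` has order `m` modulo `p` then `Φ_m(q)` is a prime `P`, the
largest prime factor of `m`, and `m = P ^ s * d`, `d ∣ P - 1`. -/
def S_ZA : Prop := ∀ q m : ℕ, 2 ≤ q → 7 ≤ m → (∀ p : ℕ, p.Prime → orderOf (q : ZMod p) ≠ m) →
  ∃ P s d : ℕ, P.Prime ∧ 1 ≤ s ∧ m = P ^ s * d ∧ ¬ P ∣ d ∧ d ∣ P - 1 ∧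
    (cyclotomic m ℤ).eval (q : ℤ) = P

/-- ZB. The size of `Φ_m(q)`. -/
def S_ZB : Prop := ∀ q m P s d : ℕ, 2 ≤ q → 7 ≤ m → P.Prime → 1 ≤ s → m = P ^ s * d → ¬ P ∣ d →
  d ∣ P - 1 → (P : ℤ) < (cyclotomic m ℤ).eval (q : ℤ)

/-- CA. The number of linearly independent `s`-tuples in a subspace of dimension `w`. -/
def S_CA : Prop := ∀ (F V : Type) [Field F] [Finite F] [AddCommGroup V] [Module F V]
  [FiniteDimensional F V] (W : Submodule F V) (s w : ℕ), Module.finrank F W = w → s ≤ w →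
  Nat.card {v : Fin s → V // LinearIndependent F v ∧ ∀ i, v i ∈ W} =
    ∏ i : Fin s, (Nat.card F ^ w - Nat.card F ^ (i : ℕ))

/-- CB. Double counting in the quotient by a subspace `I` of dimension `i`. -/
def S_CB : Prop := ∀ (F V ι : Type) [Field F] [Finite F] [AddCommGroup V] [Module F V]
  [FiniteDimensional F V] [Finite ι] (t k lam i : ℕ) (B : ι → Submodule F V)
  (I : Submodule F V), IsSubspaceDesign F V ι t k lam B → t ≤ k → k ≤ Module.finrank F V → i ≤ t →
  Module.finrank F I = i →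
  ∃ r : ℕ, lam * ∏ s : Fin (t - i), (Nat.card F ^ (Module.finrank F V - i) - Nat.card F ^ (s : ℕ)) =
    r * ∏ s : Fin (t - i), (Nat.card F ^ (k - i) - Nat.card F ^ (s : ℕ))

/-- IA. Vanishing of the finite differences of the quotients `m j = (N + a j) / (K + j)`. -/
def S_IA : Prop := ∀ (K N e T : ℕ) (m a : ℕ → ℤ), 1 ≤ e → 2 ^ (e + 1) * T ≤ K → 
  2 * e.factorial * N < K ^ (e + 1) →
  (∀ j < T, ((K : ℤ) + j) * m j = N + a j ∧ 0 ≤ a j ∧ a j ≤ j) →
  ∀ i, i + e < T → ∑ l ∈ Finset.range (e + 1), (-1 : ℤ) ^ l * (e.choose l) * m (i + l) = 0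

/-- IB. Newton expansion on an interval. -/
def S_IB : Prop := ∀ (e T : ℕ) (m : ℕ → ℤ),
  (∀ i, i + e < T → ∑ l ∈ Finset.range (e + 1), (-1 : ℤ) ^ l * (e.choose l) * m (i + l) = 0) →
  ∃ c : ℕ → ℤ, ∀ j < T, m j = ∑ k ∈ Finset.range e, c k * (j.choose k)

/-- IC. Integer-valued polynomials `(K + j) m j - N` with values in `[0, j]`. -/
def S_IC : Prop := ∀ (K N e p T : ℕ) (c m : ℕ → ℤ), 1 ≤ K → 1 ≤ e → p.Prime → 2 * e + 1 ≤ p →
  2 * p ≤ T → (∀ j < T, m j = ∑ k ∈ Finset.range e, c k * (j.choose k)) →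
  (∀ j < T, 0 ≤ ((K : ℤ) + j) * m j - N ∧ ((K : ℤ) + j) * m j - N ≤ j) → N = 0 ∨ N = K

end Pool.Agent.H108.QS
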