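import Mathlib

set_option autoImplicit false

namespace Pool.Agent.H108.QS

open Polynomial

/-- CV. The residue conditions imply the classical divisibility conditions, for every `q`. -/
def S_CV : Prop := ∀ (q : ℤ) (K N t : ℕ), 1 ≤ K → 1 ≤ N →
  (∀ j < t, ∃ a ≤ j, (K + j) ∣ (N + a)) →
  ∀ j < t, (∏ s ∈ Finset.range (j + 1), (q ^ (K + s) - 1)) ∣
    ∏ s ∈ Finset.range (j + 1), (q ^ (N + s) - 1)

/-- IU. The uniform form. -/
def S_IU : Prop := ∀ (K N t : ℕ), 1 ≤ K → K ≤ N →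
  (∀ e p : ℕ, 1 ≤ e → p.Prime → e < p → 2 * p ≤ t → 2 ^ (e + 2) * p ≤ K →
    K ^ (e + 1) ≤ 2 * e.factorial * N) →
  (K : ℝ) ^ (min (t : ℝ) (Real.log K) / 8) ≤ N

end Pool.Agent.H108.QS
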