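import Pool.Agent.H108.QS.Stm

set_option autoImplicit false

namespace Pool.Agent.H108.QS

open Polynomial

lemma za_root_order (b m p : ℕ) (hm : m ≠ 0) (hp : p.Prime)
    (h : p ∣ ((cyclotomic m ℤ).eval (b : ℤ)).natAbs) :
    ∃ k d, ¬ p ∣ d ∧ m = p ^ k * d ∧ orderOf (b : ZMod p) = d ∧ d ∣ p - 1 := by
  have := Fact.mk hp
  obtain ⟨k, d, hd, rfl⟩ := Nat.exists_eq_pow_mul_and_not_dvd hm p hp.ne_one
  have : NeZero (d : ZMod p) := ⟨fun h0 => hd ((ZMod.natCast_eq_zero_iff d p).1 h0)⟩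
  have h1 : (cyclotomic (p ^ k * d) (ZMod p)).IsRoot (b : ZMod p) := by
    have h2 : (((cyclotomic (p ^ k * d) ℤ).eval (b : ℤ) : ℤ) : ZMod p) = 0 :=
      (ZMod.intCast_zmod_eq_zero_iff_dvd _ p).2 (Int.natCast_dvd.2 h)
    rw [IsRoot, ← map_cyclotomic_int, eval_map]
    have := eval₂_at_apply (p := cyclotomic (p ^ k * d) ℤ) (Int.castRingHom (ZMod p)) (b : ℤ)
    simp only [eq_intCast, Int.cast_natCast] at this
    rw [this, h2]
  have h3 := isRoot_cyclotomic_prime_pow_mul_iff_of_charP.1 h1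
  have h4 := h3.eq_orderOf
  have hd0 : d ≠ 0 := by rintro rfl; simp at hd
  have hb : (b : ZMod p) ≠ 0 := h3.ne_zero hd0
  exact ⟨k, d, hd, rfl, h4.symm, h4 ▸ ZMod.orderOf_dvd_card_sub_one hb⟩

theorem t_ZA : S_ZA := by
  intro b m hb hm7 hcon
  obtain ⟨Φ, hΦ⟩ : ∃ Φ, Φ = ((cyclotomic m ℤ).eval (b : ℤ)).natAbs := ⟨_, rfl⟩
  have hlt : (b - 1) ^ m.totient < Φ :=
    hΦ ▸ sub_one_pow_totient_lt_natAbs_cyclotomic_eval (by omega) (by omega)
  have key : ∀ p, p.Prime → p ∣ Φ → ∃ k d, ¬ p ∣ d ∧ m = p ^ (k + 1) * d ∧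
      orderOf (b : ZMod p) = d ∧ d ∣ p - 1 := by
    intro p hp h
    obtain ⟨k, d, h1, h2, h3, h4⟩ := za_root_order b m p (by omega) hp (hΦ ▸ h)
    rcases k with _ | k
    · exfalso; apply hcon p hp; rw [h3, h2]; simp
    · exact ⟨k, d, h1, h2, h3, h4⟩
  have h1 : 1 ≤ (b - 1) ^ m.totient := Nat.one_le_pow _ _ (by omega)
  obtain ⟨p, hp, hpΦ⟩ := Nat.exists_prime_and_dvd (n := Φ) (by omega)
  have uniq0 : ∀ p q, p.Prime → q.Prime → p ∣ Φ → q ∣ Φ → q ≤ p := by
    intro p q hp hq h1 h2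
    obtain ⟨k, d, _, e1, _, hd⟩ := key p hp h1
    obtain ⟨k', d', _, e2, _, _⟩ := key q hq h2
    have : q ∣ p ^ (k + 1) * d := by rw [← e1, e2, pow_succ, mul_assoc, mul_left_comm]; simp
    rcases (hq.dvd_mul).1 this with h | h
    · exact Nat.le_of_dvd hp.pos (hq.dvd_of_dvd_pow h)
    · have := Nat.le_of_dvd (by have := hp.two_le; omega) (h.trans hd)
      omega
  have hpow := Nat.eq_prime_pow_of_unique_prime_dvd (n := Φ) (p := p) (by omega)
    (fun {q} hq h => le_antisymm (uniq0 p q hp hq hpΦ h) (uniq0 q p hq hp h hpΦ))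
  obtain ⟨k, d, hpd, e1, ho, hd1⟩ := key p hp hpΦ
  have hpm : p ∣ m := by rw [e1, pow_succ, mul_assoc, mul_left_comm]; simp
  have hnsq : ¬ p ^ 2 ∣ Φ := by
    intro hsq
    obtain ⟨n, hn⟩ : ∃ n, n = p ^ k * d := ⟨_, rfl⟩
    have hmn : m = n * p := by rw [e1, hn]; ring
    have hn0 : 0 < n := by rcases n with _ | n <;> simp at hmn ⊢; omega
    have hdiv := X_pow_sub_one_mul_cyclotomic_dvd_X_pow_sub_one_of_dvd ℤ (d := n) (n := m)
      (Nat.mem_properDivisors.2 ⟨⟨p, hmn⟩, by have := hp.two_le; nlinarith⟩)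
    have hev := eval_dvd (x := (b : ℤ)) hdiv
    simp only [eval_mul, eval_sub, eval_pow, eval_X, eval_one] at hev
    have hy : (1 : ℤ) < (b : ℤ) ^ n := one_lt_pow₀ (by exact_mod_cast (by omega : 1 < b)) hn0.ne'
    rw [show (b : ℤ) ^ m - 1 = ((b : ℤ) ^ n - 1) * ∑ i ∈ Finset.range p, ((b : ℤ) ^ n) ^ i by
      rw [mul_geom_sum, ← pow_mul, ← hmn]] at hev
    have hev2 := (mul_dvd_mul_iff_left (by omega : (b : ℤ) ^ n - 1 ≠ 0)).1 hev
    have h6 : (p : ℤ) ^ 2 ∣ ∑ i ∈ Finset.range p, ((b : ℤ) ^ n) ^ i := by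
      refine dvd_trans ?_ hev2
      rw [hΦ] at hsq
      exact_mod_cast Int.natCast_dvd.2 hsq
    have hy1 : (p : ℤ) ∣ (b : ℤ) ^ n - 1 := by
      rw [← ZMod.intCast_zmod_eq_zero_iff_dvd]
      push_cast
      rw [sub_eq_zero, ← orderOf_dvd_iff_pow_eq_one, ho, hn]
      simp
    rcases hp.eq_two_or_odd' with hp2 | hpodd
    · subst hp2
      have hd1' : d = 1 := by
        have := Nat.le_of_dvd (by norm_num) hd1
        have h0 : d ≠ 0 := by rintro rfl; simp at hpd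
        omega
      subst hd1'
      have hk2 : 2 ≤ k := by
        by_contra hlt2
        have : k = 0 ∨ k = 1 := by omega
        rcases this with rfl | rfl
        · norm_num at e1
          omega
        · norm_num at e1
          omega
      obtain ⟨j, rfl⟩ := Nat.exists_eq_add_of_le hk2
      have hn2 : n = 2 * (2 * 2 ^ j) := by rw [hn]; ring
      simp only [Finset.sum_range_succ, Finset.sum_range_zero, pow_zero, pow_one, zero_add] at h6
      have hodd : Odd (b : ℤ) := by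
        by_contra he
        rw [Int.not_odd_iff_even] at he
        have h7 : Even ((b : ℤ) ^ n) := he.pow_of_ne_zero hn0.ne'
        obtain ⟨u, hu⟩ := h7
        obtain ⟨v, hv⟩ := hy1
        push_cast at hv
        omega
      have h8 : (4 : ℤ) ∣ (b : ℤ) ^ n - 1 := by
        rw [hn2, pow_mul]
        have h9 : (4 : ℤ) ∣ (b : ℤ) ^ 2 - 1 := by
          obtain ⟨u, hu⟩ := hodd
          rw [hu]
          exact ⟨u ^ 2 + u, by ring⟩
        refine h9.trans ?_
        have := sub_dvd_pow_sub_pow ((b : ℤ) ^ 2) 1 (2 * 2 ^ j)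
        rwa [one_pow] at this
      obtain ⟨u, hu⟩ := h6
      obtain ⟨v, hv⟩ := h8
      push_cast at hu
      omega
    · obtain ⟨t, ht⟩ := hy1
      have h5 := odd_sq_dvd_geom_sum₂_sub (R := ℤ) (a := 1) (b := t) (p := p) hpodd
      simp only [one_pow, mul_one] at h5
      rw [show (1 : ℤ) + p * t = (b : ℤ) ^ n by linarith] at h5
      have h7 : (p : ℤ) ^ 2 ∣ p := by
        have := dvd_sub h6 h5
        simpa using this
      have h8 : p ^ 2 ∣ p := by exact_mod_cast h7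
      have := Nat.le_of_dvd hp.pos h8
      have := hp.two_le
      nlinarith
  have hΦp : Φ = p := by
    obtain ⟨l, hl⟩ : ∃ l, l = Φ.primeFactorsList.length := ⟨_, rfl⟩
    rw [← hl] at hpow
    rcases l with _ | _ | l
    · rw [pow_zero] at hpow
      omega
    · rw [hpow]; simp
    · exact absurd ⟨p ^ l, by rw [hpow]; ring⟩ hnsq
  have hpos : 0 < (cyclotomic m ℤ).eval (b : ℤ) := cyclotomic_pos (by omega) _
  refine ⟨p, k + 1, d, hp, by omega, e1, hpd, hd1, ?_⟩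
  have h9 : (((cyclotomic m ℤ).eval (b : ℤ)).natAbs : ℤ) = (cyclotomic m ℤ).eval (b : ℤ) :=
    Int.natAbs_of_nonneg hpos.le
  rw [← h9, ← hΦ, hΦp]

end Pool.Agent.H108.QS
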